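import Pool.Agent.Y748.NE.B3

/-! Barriers for the energies of the tails and the other modes during one stage (helper748). -/

open Set Filter Topology MeasureTheory

set_option autoImplicit false

namespace Pool.Agent.Y748.NE

open Pool.Agent.Y5.E
open Pool.Agent.Y5.E.Gd

theorem t_BAR1 : Pool.Agent.Y5.E.S_BAR1 := by
  intro lam N L C ℓ B T x w f n σ a t1 t b
  have g := b.g
  have h := b.h
  have hc := b.hc
  have q := g.q
  have ha := apos h n le_rfl
  have ha1 := g.ale h n le_rfl
  have hσ0 := σnn h (le_refl n)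
  have htT : t < T := b.ht.2.trans_le hc.leT
  have hσt : σ n ≤ t := b.ht.1.le
  have hl := q.lamp
  have hPF : ∀ τ ∈ Icc (σ n) t, PF lam L C T x w n a τ := pf b
  have hsub : Icc (σ n) t ⊆ Ico 0 T := fun τ hτ => (hPF τ hτ).hI
  -- the ratio
  have hrp : ∀ τ ∈ Icc (σ n) t, 0 < rt C x n τ := fun τ hτ => (hPF τ hτ).rpos q
  have hXp : ∀ τ ∈ Icc (σ n) t, 0 < x n τ := fun τ hτ => Xp g (hPF τ hτ) ha
  have hdr : ∀ τ ∈ Ioo (σ n) t, HasDerivAt (rt C x n) (deriv (fun s => x (n + 1) s / x n s) τ) τ ∧
      998 / 1000 * (L n * x n τ * rt C x n τ) ≤ deriv (fun s => x (n + 1) s / x n s) τ := by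
    intro τ hτ
    obtain ⟨r', h1, h2⟩ := b.hd τ hτ
    rw [h1.deriv]
    refine ⟨?_, h2⟩
    exact h1.add_const (99 / 100 * C n)
  set rd : ℝ → ℝ := fun τ => deriv (fun s => x (n + 1) s / x n s) τ with hrd
  have hrc : ContinuousOn (rt C x n) (Icc (σ n) t) := by
    have h1 : ContinuousOn (fun s => x (n + 1) s / x n s) (Icc (σ n) t) :=
      ((g.cont (n + 1)).mono hsub).div ((g.cont n).mono hsub) fun τ hτ => (hXp τ hτ).ne'
    exact h1.add continuousOn_const
  have hlc : ContinuousOn (fun s => Real.log (rt C x n s)) (Icc (σ n) t) :=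
    hrc.log fun τ hτ => (hrp τ hτ).ne'
  have hld : ∀ τ ∈ Ioo (σ n) t,
      HasDerivAt (fun s => Real.log (rt C x n s)) (rd τ / rt C x n τ) τ := fun τ hτ =>
    (hdr τ hτ).1.log (hrp τ ⟨hτ.1.le, hτ.2.le⟩).ne'
  have hrd0 : ∀ τ ∈ Ioo (σ n) t, 998 / 1000 * (L n * x n τ) ≤ rd τ / rt C x n τ := by
    intro τ hτ
    have hr := hrp τ ⟨hτ.1.le, hτ.2.le⟩
    rw [le_div_iff₀ hr]
    have := (hdr τ hτ).2
    linarith
  have hLX0 : ∀ τ ∈ Icc (σ n) t, 0 < L n * x n τ := fun τ hτ =>
    mul_pos (q.Lp n) (hXp τ hτ)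
  have hthc : ContinuousOn (th lam C x n) (Icc (σ n) t) := by
    have h1 : ContinuousOn (fun s => 101 / 100 * (Real.log (rt C x n s) + Real.log 100) +
        101 / 100 * lam * rt C x n s) (Icc (σ n) t) :=
      (continuousOn_const.mul (hlc.add continuousOn_const)).add (continuousOn_const.mul hrc)
    exact h1
  have hthd : ∀ τ ∈ Ioo (σ n) t, HasDerivAt (th lam C x n)
      (101 / 100 * (rd τ / rt C x n τ) + 101 / 100 * lam * rd τ) τ := by
    intro τ hτ
    have h1 := (((hld τ hτ).add_const (Real.log 100)).const_mul (101 / 100 : ℝ)).add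
      ((hdr τ hτ).1.const_mul (101 / 100 * lam))
    exact h1
  have hthP : ∀ τ ∈ Ioo (σ n) t, 10079 / 10000 * Pp lam L C x n τ ≤
      101 / 100 * (rd τ / rt C x n τ) + 101 / 100 * lam * rd τ := by
    intro τ hτ
    have h1 := hrd0 τ hτ
    have h2 : lam * (998 / 1000 * (L n * x n τ * rt C x n τ)) ≤ lam * rd τ := by
      gcongr
      exact (hdr τ hτ).2
    have h3 := hLX0 τ ⟨hτ.1.le, hτ.2.le⟩
    have h4 := hrp τ ⟨hτ.1.le, hτ.2.le⟩
    have h5 : 0 < lam * (L n * x n τ * rt C x n τ) := by positivity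
    rw [Pp]
    nlinarith
  -- the other modes of the group `n + 1`
  have hw1 : ∀ τ ∈ Icc (σ n) t, w (n + 1) τ ≤ 100 * dl1 lam * a n * rt C x n τ := by
    have hd1 := dl1_pos lam
    have hmem : σ n ∈ Icc (σ n) t := ⟨le_rfl, hσt⟩
    have key := wbar2 g (n + 1) (α := σ n) (t := t) (B0 := 100 * dl1 lam * a n) hσ0 htT
      (by positivity) hlc hld
      (fun τ hτ => by
        have h1 := hrd0 τ hτ
        have h2 := hLX0 τ ⟨hτ.1.le, hτ.2.le⟩
        linarith)
      (fun τ hτ => by
        rw [Real.exp_log (hrp τ ⟨hτ.1.le, hτ.2.le⟩)]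
        exact wf1_le g (hPF τ ⟨hτ.1.le, hτ.2.le⟩) ha ha1)
      (by
        rw [Real.exp_log (hrp _ hmem)]
        have h1 := h.tw 0
        rw [add_zero] at h1
        refine h1.trans ?_
        have h2 := (hPF _ hmem).rlo
        have h3 := q.C_lo n
        have e : dlt lam * Real.exp (-(Rp 0) * lam) ≤
            dl1 lam * Real.exp (-(301 / 10000) * lam) := by
          rw [dlt, dl1, ← Real.exp_add, ← Real.exp_add]
          apply Real.exp_le_exp.2
          rw [Rp]
          push_cast
          linarith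
        have hCp := q.Cp n
        calc dlt lam * (a n * Real.exp (-(Rp 0) * lam))
            = (dlt lam * Real.exp (-(Rp 0) * lam)) * a n := by ring
          _ ≤ (dl1 lam * Real.exp (-(301 / 10000) * lam)) * a n := by gcongr
          _ ≤ (dl1 lam * (100 * rt C x n (σ n))) * a n := by
              gcongr
              linarith
          _ = _ := by ring)
    intro τ hτ
    have h1 := key τ hτ
    rwa [Real.exp_log (hrp τ hτ)] at h1
  -- induction over the levels
  have hind : ∀ j : ℕ, ∀ τ ∈ Icc (σ n) t, √(Yt x w (n + 2 + j) τ) ≤ bb lam C x a n j τ ∧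
      w (n + 2 + j) τ ≤ dlt lam * bb lam C x a n j τ := by
    intro j
    induction j using Nat.strong_induction_on with
    | _ j ih =>
    have hH : ∀ τ ∈ Icc (σ n) t, Hj lam C x w a n j τ := fun τ hτ =>
      ⟨hw1 τ hτ, fun i hi => (ih i hi τ hτ).1, fun i hi => (ih i hi τ hτ).2⟩
    have hmem : σ n ∈ Icc (σ n) t := ⟨le_rfl, hσt⟩
    have hexp : a n * Real.exp (-(Rp (j + 1)) * lam) ≤ bb lam C x a n j (σ n) := by
      have h1 := (hPF _ hmem).eth_lo q
      rw [bb]
      calc a n * Real.exp (-(Rp (j + 1)) * lam)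
          ≤ a n * (Real.exp (-(Rr j) * lam) * Real.exp (-(30402 / 1000000) * lam)) := by
            gcongr
            rw [← Real.exp_add]
            apply Real.exp_le_exp.2
            have e : -Rr j * lam + -(30402 / 1000000) * lam - -Rp (j + 1) * lam =
                298 / 1000000 * lam := by
              rw [Rr, Rp]; push_cast; ring
            have : 0 < 298 / 1000000 * lam := by positivity
            linarith
        _ ≤ a n * (Real.exp (-(Rr j) * lam) * Real.exp (th lam C x n (σ n))) := by gcongr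
        _ = _ := by ring
    have hY : ∀ τ ∈ Icc (σ n) t, √(Yt x w (n + 2 + j) τ) ≤ bb lam C x a n j τ := by
      have key := ybar g (n + 2 + j) (α := σ n) (t := t)
        (B0 := a n * Real.exp (-(Rr j) * lam)) hσ0 htT (by positivity) hthc hthd
        (fun τ hτ => by
          have hτ' : τ ∈ Icc (σ n) t := ⟨hτ.1.le, hτ.2.le⟩
          have hP := Pp_pos g (hPF τ hτ') ha
          refine ⟨1 / 10 ^ 4 * Pp lam L C x n τ, 1002 / 1000 * Pp lam L C x n τ,
            1 / 10 ^ 4 * Pp lam L C x n τ, by positivity, by positivity, ?_, ?_, ?_, ?_⟩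
          · exact sl_le g (hPF τ hτ') ha (hH τ hτ')
          · exact UW_le g (hPF τ hτ') ha (hH τ hτ')
          · exact addt_le g (hPF τ hτ') ha (hH τ hτ') ha1
          · have := hthP τ hτ
            linarith)
        (by
          have h1 := h.tl (j + 1)
          rw [show n + 1 + (j + 1) = n + 2 + j by ring] at h1
          exact h1.trans hexp)
      exact key
    have hW : ∀ τ ∈ Icc (σ n) t, w (n + 2 + j) τ ≤ dlt lam * bb lam C x a n j τ := by
      have hdt := dlt_pos lam
      have key := wbar2 g (n + 2 + j) (α := σ n) (t := t)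
        (B0 := dlt lam * (a n * Real.exp (-(Rr j) * lam))) hσ0 htT (by positivity) hthc hthd
        (fun τ hτ => by
          have hτ' : τ ∈ Icc (σ n) t := ⟨hτ.1.le, hτ.2.le⟩
          have hP := Pp_pos g (hPF τ hτ') ha
          have := hthP τ hτ
          linarith)
        (fun τ hτ => by
          have hτ' : τ ∈ Icc (σ n) t := ⟨hτ.1.le, hτ.2.le⟩
          have h1 := wf_le g (hPF τ hτ') ha (hH τ hτ') ha1 (hY τ hτ')
          rw [bb] at h1
          refine h1.trans (le_of_eq ?_)
          ring)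
        (by
          have h1 := h.tw (j + 1)
          rw [show n + 1 + (j + 1) = n + 2 + j by ring] at h1
          refine h1.trans ?_
          have h2 : dlt lam * (a n * Real.exp (-(Rp (j + 1)) * lam)) ≤
              dlt lam * bb lam C x a n j (σ n) := by gcongr
          refine h2.trans (le_of_eq ?_)
          rw [bb]
          ring)
      intro τ hτ
      have h1 := key τ hτ
      refine h1.trans (le_of_eq ?_)
      rw [bb]
      ring
    exact fun τ hτ => ⟨hY τ hτ, hW τ hτ⟩
  exact fun τ hτ => ⟨hw1 τ hτ, fun j => hind j τ hτ⟩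

end Pool.Agent.Y748.NE
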