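import Pool.Agent.Y5.E.Q5

/-! Barriers during one stage: pointwise facts and two comparison lemmas (helper748). -/

open Set Filter Topology MeasureTheory

set_option autoImplicit false

namespace Pool.Agent.Y748.NE

open Pool.Agent.Y5.E
open Pool.Agent.Y5.E.Gd

/-- pointwise facts -/
structure PF (lam : ℝ) (L C : ℕ → ℝ) (T : ℝ) (x w : ℕ → ℝ → ℝ) (n : ℕ) (a : ℕ → ℝ) (τ : ℝ) :
    Prop where
  hI : τ ∈ Ico 0 T
  Xlo : 9 / 10 * a n < x n τ
  Xhi : x n τ ≤ 30 * a n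
  rlo : 74 / 100 * C n ≤ rt C x n τ
  rhi : rt C x n τ ≤ 1 / 100 + C n
  x1 : |x (n + 1) τ| ≤ rt C x n τ * x n τ
  sY : √(Yt x w (n + 1) τ) ≤ 1 / 100 * x n τ
  low : Low lam L x w a n τ
  wn : w n τ ≤ 200 * dl1 lam * a n

variable {lam N : ℝ} {L C ℓ : ℕ → ℝ} {B : ℕ → ℕ → ℝ} {T : ℝ} {x w f : ℕ → ℝ → ℝ}
variable {n : ℕ} {σ a : ℕ → ℝ} {t1 t : ℝ}

lemma pf (b : BH lam N L C ℓ B T x w f n σ a t1 t) : ∀ τ ∈ Icc (σ n) t,
    PF lam L C T x w n a τ := by
  intro τ hτ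
  have g := b.g
  have h := b.h
  have hc := b.hc
  have hτ1 : τ ∈ Ico (σ n) t1 := ⟨hτ.1, hτ.2.trans_lt b.ht.2⟩
  have hI : τ ∈ Ico 0 T := ⟨(σnn h le_rfl).trans hτ.1, hτ1.2.trans_le hc.leT⟩
  obtain ⟨hY, hX⟩ := hc.act τ hτ1
  have hap := apos h n le_rfl
  have hXp : 0 < x n τ := lt_trans (by positivity) hX
  have hCp := g.q.Cp n
  have hUB := (g.UB h hc.leT hc.le n le_rfl).1 τ hτ1
  have hXhi : x n τ ≤ 30 * a n := ((le_abs_self _).trans (g.x_le hI (le_refl n))).trans hUB.2.1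
  have hsY : √(Yt x w (n + 1) τ) ≤ 1 / 100 * x n τ := by
    rw [Real.sqrt_le_left (by positivity)]
    exact hY.le
  have hx1 : |x (n + 1) τ| ≤ 1 / 100 * x n τ := (g.x_le hI (le_refl (n + 1))).trans hsY
  have hr : -(C n / 4) ≤ x (n + 1) τ / x n τ := by
    rcases hτ.2.eq_or_lt with h1 | h1
    · rw [h1]
      have := b.hr
      linarith
    · exact (b.hy τ ⟨hτ.1, h1⟩).r.le
  have hr2 : x (n + 1) τ / x n τ ≤ 1 / 100 := by
    rw [div_le_iff₀ hXp]
    exact (le_abs_self _).trans hx1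
  refine ⟨hI, hX, hXhi, ?_, ?_, ?_, hsY, hUB.1, hUB.2.2⟩
  · rw [rt]; linarith
  · rw [rt]; linarith
  · have e : rt C x n τ * x n τ = x (n + 1) τ + 99 / 100 * C n * x n τ := by
      rw [rt]; field_simp
    have h1 : -(C n / 4) * x n τ ≤ x (n + 1) τ := by
      rwa [← le_div_iff₀ hXp]
    have h2 : 0 < C n * x n τ := by positivity
    rw [e, abs_le]
    constructor <;> linarith

namespace PF

variable (p : PF lam L C T x w n a t)
include p

lemma rpos (q : Pm lam N L C ℓ B) : 0 < rt C x n t := by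
  have := q.Cp n
  have := p.rlo
  linarith

lemma r_le (q : Pm lam N L C ℓ B) : rt C x n t ≤ 2 / 100 := by
  have := p.rhi
  have := q.C_small n
  linarith

lemma lr_lo (q : Pm lam N L C ℓ B) :
    -(301 / 10000 * lam) ≤ Real.log (rt C x n t) + Real.log 100 := by
  have hC := q.C_lo n
  have h1 := p.rlo
  have hr := p.rpos q
  have hCp := q.Cp n
  rw [← Real.log_mul hr.ne' (by norm_num)]
  rw [Real.le_log_iff_exp_le (by positivity)]
  calc Real.exp (-(301 / 10000 * lam)) = Real.exp (-(301 / 10000) * lam) := by ring_nf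
    _ ≤ C n := hC
    _ ≤ _ := by linarith

lemma lr_hi (q : Pm lam N L C ℓ B) :
    Real.log (rt C x n t) + Real.log 100 ≤ 100 * C n := by
  have h1 := p.rhi
  have hr := p.rpos q
  rw [← Real.log_mul hr.ne' (by norm_num)]
  have h2 := Real.log_le_sub_one_of_pos (show 0 < rt C x n t * 100 by positivity)
  linarith

lemma th_lo (q : Pm lam N L C ℓ B) : -(30402 / 1000000) * lam ≤ th lam C x n t := by
  have h1 := p.lr_lo q
  have h2 := p.rpos q
  have h3 := q.lamp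
  have h4 : 0 < lam * rt C x n t := by positivity
  rw [th]
  linarith

lemma th_hi (q : Pm lam N L C ℓ B) : th lam C x n t ≤ 102 / 10000 * lam := by
  have h1 := p.lr_hi q
  have h2 := p.rhi
  have h3 := q.lamp
  have h4 := q.C_small n
  have h5 : lam * rt C x n t ≤ lam * (1 / 100 + 1 / 10 ^ 20) := by
    gcongr
    linarith
  have h6 := q.lam_big
  rw [th]
  linarith

lemma eth_lo (q : Pm lam N L C ℓ B) :
    Real.exp (-(30402 / 1000000) * lam) ≤ Real.exp (th lam C x n t) :=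
  Real.exp_le_exp.2 (p.th_lo q)

lemma eth_hi (q : Pm lam N L C ℓ B) :
    Real.exp (th lam C x n t) ≤ Real.exp (102 / 10000 * lam) :=
  Real.exp_le_exp.2 (p.th_hi q)

/-- `a r` is at most `exp (0.0254 lam)` times the barrier -/
lemma ar (q : Pm lam N L C ℓ B) (ha : 0 < a n) :
    a n * rt C x n t ≤ Real.exp (254 / 10000 * lam) * bb lam C x a n 0 t := by
  have h1 := p.lr_lo q
  have hr := p.rpos q
  have hl := q.lamp
  have e : rt C x n t = Real.exp (Real.log (rt C x n t)) := (Real.exp_log hr).symm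
  have h100 : 0 ≤ Real.log (100 : ℝ) := Real.log_nonneg (by norm_num)
  have h4 : 0 < lam * rt C x n t := by positivity
  have h2 : rt C x n t ≤ Real.exp (254 / 10000 * lam) *
      (Real.exp (-(Rr 0) * lam) * Real.exp (th lam C x n t)) := by
    rw [← Real.exp_add, ← Real.exp_add]
    nth_rewrite 1 [e]
    apply Real.exp_le_exp.2
    rw [th, Rr]
    push_cast
    nlinarith
  rw [bb]
  calc a n * rt C x n t ≤ a n * (Real.exp (254 / 10000 * lam) *
      (Real.exp (-(Rr 0) * lam) * Real.exp (th lam C x n t))) := by gcongr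
    _ = _ := by ring

end PF

/-- comparison for the other modes -/
lemma wbar2 (g : Gd lam N L C ℓ B T x w f) (m : ℕ) {α t B0 : ℝ} (h0 : 0 ≤ α) (ht : t < T)
    (hB : 0 < B0) {θ θ' : ℝ → ℝ} (hc : ContinuousOn θ (Icc α t))
    (hd : ∀ τ ∈ Ioo α t, HasDerivAt θ (θ' τ) τ) (hθ : ∀ τ ∈ Ioo α t, 0 ≤ θ' τ)
    (hs : ∀ τ ∈ Ioo α t,
      wfc lam N L x w m τ ≤ Real.exp lam * L m * (B0 * Real.exp (θ τ)))
    (h : w m α ≤ B0 * Real.exp (θ α)) : ∀ τ ∈ Icc α t, w m τ ≤ B0 * Real.exp (θ τ) := by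
  intro τ hτ
  have hsub : Icc α t ⊆ Ico 0 T := fun τ hτ => ⟨h0.trans hτ.1, hτ.2.trans_lt ht⟩
  have e2 : ∀ s, (B0 * Real.exp (θ s)) ^ 2 = B0 ^ 2 * Real.exp (2 * θ s) := by
    intro s
    rw [mul_pow, ← Real.exp_nat_mul]
    norm_num
  have h1 := bar (φ := fun τ => w m τ ^ 2) (φ' := fun τ => deriv (fun τ => w m τ ^ 2) τ)
    (th := fun s => 2 * θ s) (th' := fun s => 2 * θ' s) (K := B0 ^ 2) (a := α) (b := τ) hτ.1
    (by positivity) ((g.wsq_cont m).mono ((Icc_subset_Icc_right hτ.2).trans hsub))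
    ((hc.mono (Icc_subset_Icc_right hτ.2)).const_smul (2 : ℝ) |>.congr fun s _ => by
      simp [smul_eq_mul])
    (fun s hs' => by
      have hsI : s ∈ Ioo α t := ⟨hs'.1, hs'.2.trans_le hτ.2⟩
      obtain ⟨D, hD, _⟩ := g.sy.dw m s (hsub ⟨hsI.1.le, hsI.2.le⟩)
      have h2 := hD.hasDerivAt (Ico_mem_nhds (h0.trans_lt hsI.1) (hsI.2.trans ht))
      rw [h2.deriv]; exact h2)
    (fun s hs' => (hd s ⟨hs'.1, hs'.2.trans_le hτ.2⟩).const_mul 2)
    (fun s hs' hlt => by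
      have hsI : s ∈ Ioo α t := ⟨hs'.1, hs'.2.trans_le hτ.2⟩
      obtain ⟨D, hD, hDle⟩ := g.sy.dw m s (hsub ⟨hsI.1.le, hsI.2.le⟩)
      have h2 := hD.hasDerivAt (Ico_mem_nhds (h0.trans_lt hsI.1) (hsI.2.trans ht))
      rw [h2.deriv]
      have hw := g.sy.w0 m s (hsub ⟨hsI.1.le, hsI.2.le⟩)
      have hlt' : (B0 * Real.exp (θ s)) ^ 2 < w m s ^ 2 := by rw [e2]; exact hlt
      have hbw : B0 * Real.exp (θ s) < w m s := lt_of_pow_lt_pow_left₀ 2 hw hlt'
      have h3 := hs s hsI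
      unfold wfc at h3
      have hSL : 0 < Real.exp lam * L m := mul_pos (Real.exp_pos _) (g.q.Lp m)
      have h4 := mul_le_mul_of_nonneg_left h3 (by positivity : (0 : ℝ) ≤ 2 * w m s)
      have h5 : 0 ≤ (Real.exp lam * L m) * w m s * (w m s - B0 * Real.exp (θ s)) := by
        have : 0 ≤ w m s - B0 * Real.exp (θ s) := by linarith
        positivity
      have h6 : 0 ≤ w m s ^ 2 * (2 * θ' s) := by
        have := hθ s hsI
        positivity
      nlinarith)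
    (by
      have hw := g.sy.w0 m α (hsub ⟨le_rfl, hτ.1.trans hτ.2⟩)
      show w m α ^ 2 ≤ B0 ^ 2 * Real.exp (2 * θ α)
      rw [← e2]
      gcongr)
  have h2 : w m τ ^ 2 ≤ (B0 * Real.exp (θ τ)) ^ 2 := by rw [e2]; exact h1
  exact le_of_pow_le_pow_left₀ (by norm_num) (by positivity) h2

/-- comparison for the energies of the tails -/
lemma ybar (g : Gd lam N L C ℓ B T x w f) (m : ℕ) {α t B0 : ℝ} (h0 : 0 ≤ α) (ht : t < T)
    (hB : 0 < B0) {θ θ' : ℝ → ℝ} (hc : ContinuousOn θ (Icc α t))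
    (hd : ∀ τ ∈ Ioo α t, HasDerivAt θ (θ' τ) τ)
    (hs : ∀ τ ∈ Ioo α t, ∃ c1 c2 c3 : ℝ, 0 ≤ c1 ∧ 0 ≤ c3 ∧
      src L C x m τ + N * loc L x w m τ ≤ c1 * (B0 * Real.exp (θ τ)) ∧
      10011 / 10000 * Ut L x m τ + N * Uw L w m τ ≤ c2 ∧
      addt lam N L x w m τ ≤ c3 * (B0 * Real.exp (θ τ)) ^ 2 ∧
      2 * c1 + 2 * c2 + c3 ≤ 2 * θ' τ)
    (h : √(Yt x w m α) ≤ B0 * Real.exp (θ α)) :
    ∀ τ ∈ Icc α t, √(Yt x w m τ) ≤ B0 * Real.exp (θ τ) := by
  intro τ hτ
  have hsub : Icc α t ⊆ Ico 0 T := fun τ hτ => ⟨h0.trans hτ.1, hτ.2.trans_lt ht⟩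
  have e2 : ∀ s, (B0 * Real.exp (θ s)) ^ 2 = B0 ^ 2 * Real.exp (2 * θ s) := by
    intro s
    rw [mul_pow, ← Real.exp_nat_mul]
    norm_num
  have h1 := bar (φ := Yt x w m) (φ' := fun τ => deriv (Yt x w m) τ)
    (th := fun s => 2 * θ s) (th' := fun s => 2 * θ' s) (K := B0 ^ 2) (a := α) (b := τ) hτ.1
    (by positivity) ((g.Ycont m).mono ((Icc_subset_Icc_right hτ.2).trans hsub))
    ((hc.mono (Icc_subset_Icc_right hτ.2)).const_smul (2 : ℝ) |>.congr fun s _ => by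
      simp [smul_eq_mul])
    (fun s hs' => by
      have hsI : s ∈ Ioo α t := ⟨hs'.1, hs'.2.trans_le hτ.2⟩
      obtain ⟨D, hD, _⟩ := g.dYu m (hsub ⟨hsI.1.le, hsI.2.le⟩)
      have h2 := hD.hasDerivAt (Ico_mem_nhds (h0.trans_lt hsI.1) (hsI.2.trans ht))
      rw [h2.deriv]; exact h2)
    (fun s hs' => (hd s ⟨hs'.1, hs'.2.trans_le hτ.2⟩).const_mul 2)
    (fun s hs' hlt => by
      have hsI : s ∈ Ioo α t := ⟨hs'.1, hs'.2.trans_le hτ.2⟩
      obtain ⟨D, hD, hDle⟩ := g.dYu m (hsub ⟨hsI.1.le, hsI.2.le⟩)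
      have h2 := hD.hasDerivAt (Ico_mem_nhds (h0.trans_lt hsI.1) (hsI.2.trans ht))
      rw [h2.deriv]
      refine hDle.trans ?_
      obtain ⟨c1, c2, c3, hc1, hc3, hA, hU, hadd, hsum⟩ := hs s hsI
      have hY0 := Y_nonneg x w m s
      set β := B0 * Real.exp (θ s) with hβ
      have hβp : 0 < β := by positivity
      have hlt' : β ^ 2 < Yt x w m s := by rw [e2]; exact hlt
      have hq : β ≤ √(Yt x w m s) := Real.le_sqrt_of_sq_le hlt'.le
      have hq0 := Real.sqrt_nonneg (Yt x w m s)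
      have hqq : √(Yt x w m s) * √(Yt x w m s) = Yt x w m s := Real.mul_self_sqrt hY0
      have s1 : 2 * (src L C x m s + N * loc L x w m s) * √(Yt x w m s) ≤
          2 * c1 * Yt x w m s := by
        calc 2 * (src L C x m s + N * loc L x w m s) * √(Yt x w m s)
            ≤ 2 * (c1 * β) * √(Yt x w m s) := by gcongr
          _ ≤ 2 * (c1 * √(Yt x w m s)) * √(Yt x w m s) := by gcongr
          _ = 2 * c1 * (√(Yt x w m s) * √(Yt x w m s)) := by ring
          _ = _ := by rw [hqq]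
      have s2 : 2 * (10011 / 10000 * Ut L x m s + N * Uw L w m s) * Yt x w m s ≤
          2 * c2 * Yt x w m s := by gcongr
      have s3 : addt lam N L x w m s ≤ c3 * Yt x w m s := by
        refine hadd.trans ?_
        gcongr
      have s4 : Yt x w m s * (2 * c1 + 2 * c2 + c3) ≤ Yt x w m s * (2 * θ' s) := by gcongr
      linarith)
    (by
      have hY0 := Y_nonneg x w m α
      show Yt x w m α ≤ B0 ^ 2 * Real.exp (2 * θ α)
      rw [← e2]
      have h3 := Real.sq_sqrt hY0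
      rw [← h3]
      gcongr)
  have h2 : Yt x w m τ ≤ (B0 * Real.exp (θ τ)) ^ 2 := by rw [e2]; exact h1
  exact (Real.sqrt_le_left (by positivity)).2 h2

end Pool.Agent.Y748.NE
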