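import Pool.Agent.Y748.NE.B1

/-! Barriers during one stage: the estimates at the level `n + 2 + j` (helper748). -/

open Set Filter Topology MeasureTheory

set_option autoImplicit false

namespace Pool.Agent.Y748.NE

open Pool.Agent.Y5.E
open Pool.Agent.Y5.E.Gd

variable {lam N : ℝ} {L C ℓ : ℕ → ℝ} {B : ℕ → ℕ → ℝ} {T : ℝ} {x w f : ℕ → ℝ → ℝ}
variable {n : ℕ} {σ a : ℕ → ℝ} {t1 t : ℝ}

/-- the ratio of two consecutive barriers -/
noncomputable def vv (lam : ℝ) : ℝ := Real.exp (-(41 / 1000) * lam)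

lemma vv_pos (lam : ℝ) : 0 < vv lam := Real.exp_pos _

lemma lam_EE (q : Pm lam N L C ℓ B) : lam ≤ EE lam := by
  have := q.EE_lam
  have := q.lamp
  linarith

lemma vv_small (q : Pm lam N L C ℓ B) : EE lam * vv lam ≤ 1 / 10 ^ 20 := by
  have := q.EE_small 1 (α := -(41 / 1000)) (by norm_num)
  rwa [pow_one] at this

lemma uu_small (q : Pm lam N L C ℓ B) : lam * vv lam ≤ 1 / 10 ^ 20 := by
  have h1 := vv_small q
  have h2 := lam_EE q
  have h3 := vv_pos lam
  calc lam * vv lam ≤ EE lam * vv lam := by gcongr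
    _ ≤ _ := h1

lemma vv_le (q : Pm lam N L C ℓ B) : vv lam ≤ 1 / 10 ^ 20 := by
  have h1 := uu_small q
  have h2 := q.lam1
  have h3 := vv_pos lam
  nlinarith

lemma bb_eq (lam : ℝ) (C : ℕ → ℝ) (x : ℕ → ℝ → ℝ) (a : ℕ → ℝ) (n j : ℕ) (t : ℝ) :
    bb lam C x a n j t = bb lam C x a n 0 t * vv lam ^ j := by
  rw [bb, bb, vv, ← Real.exp_nat_mul]
  have e : Real.exp (-(Rr j) * lam) =
      Real.exp (-(Rr 0) * lam) * Real.exp ((j : ℝ) * (-(41 / 1000) * lam)) := by
    rw [← Real.exp_add]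
    congr 1
    rw [Rr, Rr]
    push_cast
    ring
  rw [e]
  ring

lemma bb_pos (lam : ℝ) (C : ℕ → ℝ) (x : ℕ → ℝ → ℝ) (a : ℕ → ℝ) (n j : ℕ) (t : ℝ)
    (ha : 0 < a n) : 0 < bb lam C x a n j t := by
  rw [bb]; positivity

lemma bb0_hi (p : PF lam L C T x w n a t) (q : Pm lam N L C ℓ B) (ha : 0 < a n) :
    bb lam C x a n 0 t ≤ a n * Real.exp (-(148 / 10000) * lam) := by
  have h := p.eth_hi q
  rw [bb]
  calc a n * Real.exp (-(Rr 0) * lam) * Real.exp (th lam C x n t)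
      ≤ a n * Real.exp (-(Rr 0) * lam) * Real.exp (102 / 10000 * lam) := by gcongr
    _ = a n * Real.exp (-(148 / 10000) * lam) := by
        rw [mul_assoc, ← Real.exp_add]
        congr 2
        rw [Rr]; push_cast; ring

lemma bb0_lo (p : PF lam L C T x w n a t) (q : Pm lam N L C ℓ B) (ha : 0 < a n) :
    a n * Real.exp (-(55402 / 1000000) * lam) ≤ bb lam C x a n 0 t := by
  have h := p.eth_lo q
  rw [bb]
  calc a n * Real.exp (-(55402 / 1000000) * lam)
      = a n * Real.exp (-(Rr 0) * lam) * Real.exp (-(30402 / 1000000) * lam) := by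
        rw [mul_assoc, ← Real.exp_add]
        congr 2
        rw [Rr]; push_cast; ring
    _ ≤ _ := by gcongr

/-- hypotheses at the level `j` -/
structure Hj (lam : ℝ) (C : ℕ → ℝ) (x w : ℕ → ℝ → ℝ) (a : ℕ → ℝ) (n j : ℕ) (t : ℝ) : Prop where
  w1 : w (n + 1) t ≤ 100 * dl1 lam * a n * rt C x n t
  y : ∀ i < j, √(Yt x w (n + 2 + i) t) ≤ bb lam C x a n i t
  w : ∀ i < j, w (n + 2 + i) t ≤ dlt lam * bb lam C x a n i t

lemma Hj.mono {j j' : ℕ} (H : Hj lam C x w a n j t) (h : j' ≤ j) : Hj lam C x w a n j' t :=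
  ⟨H.w1, fun i hi => H.y i (by omega), fun i hi => H.w i (by omega)⟩

/-- main rate -/
noncomputable def Pp (lam : ℝ) (L C : ℕ → ℝ) (x : ℕ → ℝ → ℝ) (n : ℕ) (t : ℝ) : ℝ :=
  L n * x n t * (1 + lam * rt C x n t)

lemma dlt_le (q : Pm lam N L C ℓ B) : dlt lam ≤ 1 / 10 ^ 20 := by
  have := q.EE_small 0 (α := -(1 / 2)) (by norm_num)
  rwa [pow_zero, one_mul] at this

section lev

variable (g : Gd lam N L C ℓ B T x w f) (p : PF lam L C T x w n a t) (ha : 0 < a n)
  (ha1 : a n ≤ 1)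
include g p ha

lemma z1_le {j : ℕ} (H : Hj lam C x w a n j t) :
    |x (n + 1) t| + w (n + 1) t ≤ 31 * a n * rt C x n t := by
  have q := g.q
  have h1 := p.x1
  have h2 := H.w1
  have hr := p.rpos q
  have hX := p.Xhi
  have hd := dl1_small1 q
  have hdp := dl1_pos lam
  have h3 : rt C x n t * x n t ≤ rt C x n t * (30 * a n) := by gcongr
  have h4 : 100 * dl1 lam * a n * rt C x n t ≤ 1 * a n * rt C x n t := by
    gcongr
    linarith
  linarith

lemma z1_le' {j : ℕ} (H : Hj lam C x w a n j t) :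
    |x (n + 1) t| + w (n + 1) t ≤ 62 / 100 * a n := by
  have h1 := z1_le g p ha H
  have h2 := p.r_le g.q
  calc |x (n + 1) t| + w (n + 1) t ≤ 31 * a n * rt C x n t := h1
    _ ≤ 31 * a n * (2 / 100) := by gcongr
    _ = _ := by ring

lemma zz_le {i : ℕ} {j : ℕ} (H : Hj lam C x w a n j t) (hi : i < j) :
    |x (n + 2 + i) t| + w (n + 2 + i) t ≤ 2 * bb lam C x a n i t := by
  have h1 := (g.x_le p.hI (le_refl (n + 2 + i))).trans (H.y i hi)
  have h2 := H.w i hi
  have h3 := dlt_le g.q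
  have hb := bb_pos lam C x a n i t ha
  have h4 : dlt lam * bb lam C x a n i t ≤ 1 * bb lam C x a n i t := by
    gcongr
    linarith
  linarith

/-- `A` at the level `n + 1` -/
lemma A1_le : At lam x w (n + 1) t ≤ 31 * a n := by
  have h1 := p.low.A
  have q := g.q
  have hs := q.sq_lam
  have hs0 := q.sq_lam0
  have hX := p.Xhi
  have hXl := p.Xlo
  have hw := p.wn
  have hd := dl1_small1 q
  have hA0 := g.A_nonneg p.hI n
  rw [A_succ, abs_of_pos (by linarith : 0 < x n t)]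
  have h2 : (√lam)⁻¹ * At lam x w n t ≤ 1 / 10 ^ 15 * (103 * a n) := by gcongr
  have h3 : 200 * dl1 lam * a n ≤ 1 / 100 * a n := by
    gcongr
    linarith
  linarith

lemma A2_le {j : ℕ} (H : Hj lam C x w a n j t) : At lam x w (n + 2) t ≤ a n := by
  have h1 := A1_le g p ha
  have q := g.q
  have hs := q.sq_lam
  have hs0 := q.sq_lam0
  have hz := z1_le' g p ha H
  have hA0 := g.A_nonneg p.hI (n + 1)
  rw [show n + 2 = n + 1 + 1 by ring, A_succ]
  have h2 : (√lam)⁻¹ * At lam x w (n + 1) t ≤ 1 / 10 ^ 15 * (31 * a n) := by gcongr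
  linarith

/-- `A` at the levels `n + 2 + j` -/
lemma Aj_le : ∀ j, Hj lam C x w a n j t →
    At lam x w (n + 2 + j) t ≤ (2 - (1 / 2) ^ j) * (√lam)⁻¹ ^ j * a n := by
  intro j
  have q := g.q
  have hs := q.sq_lam
  have hs0 := q.sq_lam0
  have hl := q.lamp
  induction j with
  | zero =>
    intro H
    have := A2_le g p ha H
    simp only [pow_zero, add_zero, mul_one]
    linarith
  | succ j ih =>
    intro H
    have h1 := ih (H.mono (Nat.le_succ j))
    have h2 := zz_le g p ha H (Nat.lt_succ_self j)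
    rw [show n + 2 + (j + 1) = n + 2 + j + 1 by ring, A_succ]
    have h3 : (√lam)⁻¹ * At lam x w (n + 2 + j) t ≤
        (√lam)⁻¹ * ((2 - (1 / 2) ^ j) * (√lam)⁻¹ ^ j * a n) := by gcongr
    have h4 : 2 * bb lam C x a n j t ≤ (1 / 2) ^ (j + 1) * (√lam)⁻¹ ^ (j + 1) * a n := by
      rw [bb_eq]
      have hb := bb0_hi p q ha
      have hv := vv_pos lam
      -- `v ≤ (1/2) ρ`
      have hsq : √lam * √lam = lam := Real.mul_self_sqrt hl.le
      have hsp : 0 < √lam := Real.sqrt_pos.2 hl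
      have hs1 : 1 ≤ √lam := Real.one_le_sqrt.2 q.lam1
      have hv1 : vv lam ≤ 1 / 2 * (√lam)⁻¹ := by
        rw [← div_eq_mul_inv, le_div_iff₀ hsp]
        have h5 := uu_small q
        have h6 : vv lam * √lam ≤ lam * vv lam := by
          have h7 : vv lam * √lam ≤ vv lam * (√lam * √lam) := by
            gcongr
            nlinarith
          rw [hsq] at h7
          linarith
        linarith
      have hb2 : 2 * bb lam C x a n 0 t ≤ 1 / 2 * (√lam)⁻¹ * a n := by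
        have h5 := q.EE_small 1 (α := -(148 / 10000)) (by norm_num)
        rw [pow_one] at h5
        have h6 := lam_EE q
        have h7 : lam * Real.exp (-(148 / 10000) * lam) ≤ 1 / 10 ^ 20 := by
          refine le_trans ?_ h5
          gcongr
        have h8 : √lam * Real.exp (-(148 / 10000) * lam) ≤ 1 / 10 ^ 20 := by
          refine le_trans ?_ h7
          gcongr
          nlinarith
        have h9 : 2 * Real.exp (-(148 / 10000) * lam) ≤ 1 / 2 * (√lam)⁻¹ := by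
          rw [← div_eq_mul_inv, le_div_iff₀ hsp]
          linarith
        calc 2 * bb lam C x a n 0 t ≤ 2 * (a n * Real.exp (-(148 / 10000) * lam)) := by gcongr
          _ = (2 * Real.exp (-(148 / 10000) * lam)) * a n := by ring
          _ ≤ _ := by gcongr
      have hbp := bb_pos lam C x a n 0 t ha
      calc 2 * (bb lam C x a n 0 t * vv lam ^ j)
          = (2 * bb lam C x a n 0 t) * vv lam ^ j := by ring
        _ ≤ (1 / 2 * (√lam)⁻¹ * a n) * (1 / 2 * (√lam)⁻¹) ^ j := by gcongr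
        _ = _ := by rw [mul_pow]; ring
    have e : (√lam)⁻¹ * ((2 - (1 / 2) ^ j) * (√lam)⁻¹ ^ j * a n) =
        (2 - (1 / 2) ^ j) * (√lam)⁻¹ ^ (j + 1) * a n := by ring
    rw [e] at h3
    have e2 : (2 - (1 / 2 : ℝ) ^ (j + 1)) * (√lam)⁻¹ ^ (j + 1) * a n =
        (2 - (1 / 2) ^ j) * (√lam)⁻¹ ^ (j + 1) * a n +
          (1 / 2) ^ (j + 1) * (√lam)⁻¹ ^ (j + 1) * a n := by
      rw [pow_succ (1 / 2 : ℝ) j]; ring
    rw [e2]
    linarith

lemma Aj_le2 {j : ℕ} (H : Hj lam C x w a n j t) : At lam x w (n + 2 + j) t ≤ 2 * a n := by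
  have h := Aj_le g p ha j H
  have q := g.q
  have hs := q.sq_lam
  have hs0 := q.sq_lam0
  have h1 : (√lam)⁻¹ ^ j ≤ 1 := pow_le_one₀ hs0.le (by linarith)
  have h2 : (0 : ℝ) < (1 / 2) ^ j := by positivity
  refine h.trans ?_
  have h3 : (2 - (1 / 2 : ℝ) ^ j) * (√lam)⁻¹ ^ j ≤ 2 * 1 := by
    have h4 : (1 / 2 : ℝ) ^ j ≤ 1 := pow_le_one₀ (by norm_num) (by norm_num)
    have h5 : 0 ≤ 2 - (1 / 2 : ℝ) ^ j := by linarith
    calc (2 - (1 / 2 : ℝ) ^ j) * (√lam)⁻¹ ^ j ≤ (2 - (1 / 2 : ℝ) ^ j) * 1 := by gcongr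
      _ ≤ _ := by linarith
  calc (2 - (1 / 2 : ℝ) ^ j) * (√lam)⁻¹ ^ j * a n ≤ 2 * 1 * a n := by gcongr
    _ = _ := by ring

lemma Aj_sq {j : ℕ} (H : Hj lam C x w a n j t) :
    lam ^ j * At lam x w (n + 2 + j) t ^ 2 ≤ 4 * a n ^ 2 := by
  have h := Aj_le g p ha j H
  have q := g.q
  have hs0 := q.sq_lam0
  have hl := q.lamp
  have hA0 := g.A_nonneg p.hI (n + 2 + j)
  have h2 : (0 : ℝ) < (1 / 2) ^ j := by positivity
  have h3 : At lam x w (n + 2 + j) t ≤ 2 * (√lam)⁻¹ ^ j * a n := by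
    refine h.trans ?_
    gcongr
    linarith
  have e : lam ^ j * ((√lam)⁻¹ ^ j) ^ 2 = 1 := by
    rw [← pow_mul, mul_comm j 2, pow_mul, inv_pow, Real.sq_sqrt hl.le, ← mul_pow,
      mul_inv_cancel₀ hl.ne', one_pow]
  calc lam ^ j * At lam x w (n + 2 + j) t ^ 2
      ≤ lam ^ j * (2 * (√lam)⁻¹ ^ j * a n) ^ 2 := by gcongr
    _ = 4 * (lam ^ j * ((√lam)⁻¹ ^ j) ^ 2) * a n ^ 2 := by ring
    _ = _ := by rw [e]; ring

omit p in
lemma Lj (j : ℕ) : L (n + 2 + j) = lam ^ (j + 2) * L n := by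
  rw [show n + 2 + j = n + (j + 2) by ring, g.q.Lk]

/-- `lam ^ (j + 2) L bb_j` -/
lemma Lbb (j : ℕ) : L (n + 2 + j) * bb lam C x a n j t ≤
    (1 / 2) ^ j * (lam ^ 2 * L n * bb lam C x a n 0 t) := by
  have q := g.q
  have hl := q.lamp
  have hL := q.Lp n
  have hb := bb_pos lam C x a n 0 t ha
  have hv := vv_pos lam
  have hu := uu_small q
  rw [Lj g ha, bb_eq]
  calc lam ^ (j + 2) * L n * (bb lam C x a n 0 t * vv lam ^ j)
      = (lam * vv lam) ^ j * (lam ^ 2 * L n * bb lam C x a n 0 t) := by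
        rw [mul_pow]; ring
    _ ≤ (1 / 2) ^ j * (lam ^ 2 * L n * bb lam C x a n 0 t) := by
        gcongr
        linarith

lemma Uj_le : ∀ j, Hj lam C x w a n j t →
    Ut L x (n + 2 + j) t ≤ Ut L x (n + 2) t +
      (2 - 2 * (1 / 2) ^ j) * (lam ^ 2 * L n * bb lam C x a n 0 t) := by
  intro j
  have q := g.q
  induction j with
  | zero => intro H; simp
  | succ j ih =>
    intro H
    have h1 := ih (H.mono (Nat.le_succ j))
    have h2 := (g.x_le p.hI (le_refl (n + 2 + j))).trans (H.y j (Nat.lt_succ_self j))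
    rw [show n + 2 + (j + 1) = n + 2 + j + 1 by ring, U_succ]
    have hL := q.Lp (n + 2 + j)
    have h3 : L (n + 2 + j) * |x (n + 2 + j) t| ≤ L (n + 2 + j) * bb lam C x a n j t := by
      gcongr
    have h4 := Lbb g p ha j
    have e : (2 - 2 * (1 / 2 : ℝ) ^ (j + 1)) = (2 - 2 * (1 / 2) ^ j) + (1 / 2) ^ j := by
      rw [pow_succ]; ring
    rw [e, add_mul]
    linarith

lemma Wj_le : ∀ j, Hj lam C x w a n j t →
    Uw L w (n + 2 + j) t ≤ Uw L w (n + 2) t +
      (2 - 2 * (1 / 2) ^ j) * (dlt lam * (lam ^ 2 * L n * bb lam C x a n 0 t)) := by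
  intro j
  have q := g.q
  induction j with
  | zero => intro H; simp
  | succ j ih =>
    intro H
    have h1 := ih (H.mono (Nat.le_succ j))
    have h2 := H.w j (Nat.lt_succ_self j)
    rw [show n + 2 + (j + 1) = n + 2 + j + 1 by ring, Uw_succ]
    have hL := q.Lp (n + 2 + j)
    have hd := dlt_pos lam
    have h3 : L (n + 2 + j) * w (n + 2 + j) t ≤
        dlt lam * (L (n + 2 + j) * bb lam C x a n j t) := by
      calc L (n + 2 + j) * w (n + 2 + j) t
          ≤ L (n + 2 + j) * (dlt lam * bb lam C x a n j t) := by gcongr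
        _ = _ := by ring
    have h4 := Lbb g p ha j
    have h5 : dlt lam * (L (n + 2 + j) * bb lam C x a n j t) ≤
        dlt lam * ((1 / 2) ^ j * (lam ^ 2 * L n * bb lam C x a n 0 t)) := by gcongr
    have e : (2 - 2 * (1 / 2 : ℝ) ^ (j + 1)) = (2 - 2 * (1 / 2) ^ j) + (1 / 2) ^ j := by
      rw [pow_succ]; ring
    rw [e, add_mul]
    have e3 : (1 / 2 : ℝ) ^ j * (dlt lam * (lam ^ 2 * L n * bb lam C x a n 0 t)) =
        dlt lam * ((1 / 2) ^ j * (lam ^ 2 * L n * bb lam C x a n 0 t)) := by ring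
    rw [e3]
    linarith

end lev

end Pool.Agent.Y748.NE
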