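import Pool.Agent.Y748.NE.B2

/-! Barriers during one stage: the main inequalities at the level `n + 2 + j` (helper748). -/

open Set Filter Topology MeasureTheory

set_option autoImplicit false

namespace Pool.Agent.Y748.NE

open Pool.Agent.Y5.E
open Pool.Agent.Y5.E.Gd

variable {lam N : ℝ} {L C ℓ : ℕ → ℝ} {B : ℕ → ℕ → ℝ} {T : ℝ} {x w f : ℕ → ℝ → ℝ}
variable {n : ℕ} {σ a : ℕ → ℝ} {t1 t : ℝ}

lemma tiny (q : Pm lam N L C ℓ B) (c : ℝ) (hc0 : 0 ≤ c) (hc : c ≤ 10 ^ 45) (k : ℕ) {α : ℝ}
    (h : ((k + 2 : ℕ) : ℝ) / 10 ^ 7 + α ≤ -(1 / 10 ^ 6)) :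
    c * N * lam ^ k * Real.exp (α * lam) ≤ 1 / 10 ^ 20 := by
  have h1 := q.EE_small (k + 2) h
  have h2 := q.N_le
  have h3 := q.N_one
  have h4 := lam_EE q
  have h5 := q.lamp
  have h6 := q.EE_big
  have h7 := EE_pos lam
  refine le_trans ?_ h1
  have h8 : c ≤ EE lam := hc.trans h6
  calc c * N * lam ^ k * Real.exp (α * lam)
      ≤ EE lam * EE lam * EE lam ^ k * Real.exp (α * lam) := by gcongr
    _ = _ := by ring

/-- the same without `N` -/
lemma tiny' (q : Pm lam N L C ℓ B) (c : ℝ) (hc0 : 0 ≤ c) (hc : c ≤ 10 ^ 45) (k : ℕ) {α : ℝ}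
    (h : ((k + 2 : ℕ) : ℝ) / 10 ^ 7 + α ≤ -(1 / 10 ^ 6)) :
    c * lam ^ k * Real.exp (α * lam) ≤ 1 / 10 ^ 20 := by
  refine le_trans ?_ (tiny q c hc0 hc k h)
  have h3 := q.N_one
  have h5 := q.lamp
  calc c * lam ^ k * Real.exp (α * lam) = c * 1 * lam ^ k * Real.exp (α * lam) := by ring
    _ ≤ _ := by gcongr

section lev

variable (g : Gd lam N L C ℓ B T x w f) (p : PF lam L C T x w n a t) (ha : 0 < a n)
include g p ha

lemma Xp : 0 < x n t := by
  have := p.Xlo
  linarith

lemma LX_le : L n * x n t ≤ Pp lam L C x n t := by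
  have q := g.q
  have h1 := Xp g p ha
  have h2 := q.Lp n
  have h3 := p.rpos q
  have h4 := q.lamp
  rw [Pp]
  have : 0 ≤ L n * x n t * (lam * rt C x n t) := by positivity
  linarith

lemma Pp_pos : 0 < Pp lam L C x n t := by
  have h1 := Xp g p ha
  have h2 := g.q.Lp n
  exact (by positivity : 0 < L n * x n t).trans_le (LX_le g p ha)

lemma La_le : L n * a n ≤ 2 * Pp lam L C x n t := by
  have h1 := LX_le g p ha
  have h2 := g.q.Lp n
  have h3 := p.Xlo
  have h4 : L n * a n ≤ L n * (2 * x n t) := by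
    gcongr
    linarith
  linarith

lemma lrX_le : lam * L n * rt C x n t * x n t ≤ Pp lam L C x n t := by
  have q := g.q
  have h1 := Xp g p ha
  have h2 := q.Lp n
  rw [Pp]
  have : 0 ≤ L n * x n t := by positivity
  linarith

lemma a_le_b0 : a n ≤ Real.exp (55402 / 1000000 * lam) * bb lam C x a n 0 t := by
  have h := bb0_lo p g.q ha
  have e : a n = Real.exp (55402 / 1000000 * lam) *
      (a n * Real.exp (-(55402 / 1000000) * lam)) := by
    rw [mul_comm (a n), ← mul_assoc, ← Real.exp_add]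
    have : 55402 / 1000000 * lam + -(55402 / 1000000) * lam = 0 := by ring
    rw [this, Real.exp_zero, one_mul]
  nth_rewrite 1 [e]
  gcongr

lemma b0_le_a : bb lam C x a n 0 t ≤ a n := by
  have h := bb0_hi p g.q ha
  refine h.trans ?_
  have h2 : Real.exp (-(148 / 10000) * lam) ≤ 1 := by
    rw [Real.exp_le_one_iff]
    have := g.q.lamp
    linarith
  calc a n * Real.exp (-(148 / 10000) * lam) ≤ a n * 1 := by gcongr
    _ = a n := mul_one _

omit g p ha in
lemma bb_succ (i : ℕ) : bb lam C x a n i t =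
    Real.exp (41 / 1000 * lam) * bb lam C x a n (i + 1) t := by
  rw [bb_eq lam C x a n i, bb_eq lam C x a n (i + 1), pow_succ, vv]
  have : Real.exp (41 / 1000 * lam) * Real.exp (-(41 / 1000) * lam) = 1 := by
    rw [← Real.exp_add]
    have : 41 / 1000 * lam + -(41 / 1000) * lam = 0 := by ring
    rw [this, Real.exp_zero]
  calc bb lam C x a n 0 t * Real.exp (-(41 / 1000) * lam) ^ i
      = bb lam C x a n 0 t * Real.exp (-(41 / 1000) * lam) ^ i *
        (Real.exp (41 / 1000 * lam) * Real.exp (-(41 / 1000) * lam)) := by rw [this, mul_one]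
    _ = _ := by ring

lemma bb_le_b0 (i : ℕ) : bb lam C x a n i t ≤ bb lam C x a n 0 t := by
  have hb := bb_pos lam C x a n 0 t ha
  have hv := vv_pos lam
  have hv1 := vv_le g.q
  rw [bb_eq]
  have : vv lam ^ i ≤ 1 := pow_le_one₀ hv.le (by linarith)
  calc bb lam C x a n 0 t * vv lam ^ i ≤ bb lam C x a n 0 t * 1 := by gcongr
    _ = _ := mul_one _

/-- the preceding group -/
lemma zprev {j : ℕ} (H : Hj lam C x w a n j t) :
    |x (n + 1 + j) t| + w (n + 1 + j) t ≤
      31 * Real.exp (41 / 1000 * lam) * bb lam C x a n j t := by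
  have q := g.q
  have hl := q.lamp
  rcases j with _ | i
  · have h1 := z1_le g p ha H
    have h2 := p.ar q ha
    have hb := bb_pos lam C x a n 0 t ha
    have h3 : Real.exp (254 / 10000 * lam) ≤ Real.exp (41 / 1000 * lam) :=
      Real.exp_le_exp.2 (by linarith)
    rw [add_zero]
    calc |x (n + 1) t| + w (n + 1) t ≤ 31 * (a n * rt C x n t) := by linarith
      _ ≤ 31 * (Real.exp (254 / 10000 * lam) * bb lam C x a n 0 t) := by gcongr
      _ ≤ 31 * (Real.exp (41 / 1000 * lam) * bb lam C x a n 0 t) := by gcongr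
      _ = _ := by ring
  · have h1 := zz_le g p ha H (Nat.lt_succ_self i)
    have hb := bb_pos lam C x a n (i + 1) t ha
    rw [show n + 1 + (i + 1) = n + 2 + i by ring]
    rw [bb_succ i] at h1
    have : 0 < Real.exp (41 / 1000 * lam) * bb lam C x a n (i + 1) t := by positivity
    linarith

/-- rates -/
lemma UW_le {j : ℕ} (H : Hj lam C x w a n j t) :
    10011 / 10000 * Ut L x (n + 2 + j) t + N * Uw L w (n + 2 + j) t ≤
      1002 / 1000 * Pp lam L C x n t := by
  have q := g.q
  have hl := q.lamp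
  have hlb := q.lam_big
  have hL := q.Lp n
  have hX := Xp g p ha
  have hP := Pp_pos g p ha
  have hLa := La_le g p ha
  have hLX := LX_le g p ha
  have hr := p.rpos q
  have hr2 := p.r_le q
  have hN := q.N_one
  have hb := bb_pos lam C x a n 0 t ha
  have hd := dl1_pos lam
  have hdt := dlt_pos lam
  have hU := Uj_le g p ha j H
  have hW := Wj_le g p ha j H
  set P := Pp lam L C x n t with hPdef
  have hq2 : (0 : ℝ) < (1 / 2) ^ j := by positivity
  -- the lower part
  have hLal : L n * a n / lam ≤ 1 / 10 ^ 20 * (L n * a n) := by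
    rw [div_le_iff₀ hl]
    have : 0 < L n * a n := by positivity
    nlinarith
  have hLal0 : 0 < L n * a n := by positivity
  have hU2 : Ut L x (n + 2) t ≤ P + 1 / 10 ^ 10 * P := by
    rw [show n + 2 = n + 1 + 1 by ring, U_succ, U_succ, q.L_succ n, abs_of_pos hX]
    have h1 := p.low.U
    have h2 : lam * L n * |x (n + 1) t| ≤ lam * L n * (rt C x n t * x n t) := by
      gcongr
      exact p.x1
    have e : P = L n * x n t + lam * L n * (rt C x n t * x n t) := by
      rw [hPdef, Pp]; ring
    have h3 : 1012 / 10 * (L n * a n / lam) ≤ 1 / 10 ^ 10 * P := by linarith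
    linarith
  have hB : lam ^ 2 * L n * bb lam C x a n 0 t ≤ 1 / 10 ^ 20 * (L n * a n) := by
    have h1 := bb0_hi p q ha
    have h2 := tiny' q 1 (by norm_num) (by norm_num) 2 (α := -(148 / 10000)) (by norm_num)
    calc lam ^ 2 * L n * bb lam C x a n 0 t
        ≤ lam ^ 2 * L n * (a n * Real.exp (-(148 / 10000) * lam)) := by gcongr
      _ = (1 * lam ^ 2 * Real.exp (-(148 / 10000) * lam)) * (L n * a n) := by ring
      _ ≤ _ := by gcongr
  have hB0 : 0 < lam ^ 2 * L n * bb lam C x a n 0 t := by positivity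
  have hUj : Ut L x (n + 2 + j) t ≤ P + 2 / 10 ^ 10 * P := by
    have h1 : (2 - 2 * (1 / 2 : ℝ) ^ j) * (lam ^ 2 * L n * bb lam C x a n 0 t) ≤
        2 * (1 / 10 ^ 20 * (L n * a n)) := by
      have h2 : (2 - 2 * (1 / 2 : ℝ) ^ j) ≤ 2 := by linarith
      calc (2 - 2 * (1 / 2 : ℝ) ^ j) * (lam ^ 2 * L n * bb lam C x a n 0 t)
          ≤ 2 * (lam ^ 2 * L n * bb lam C x a n 0 t) := by gcongr
        _ ≤ _ := by gcongr
    linarith
  -- the other modes
  have hW2 : N * Uw L w (n + 2) t ≤ 1 / 10 ^ 5 * P := by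
    rw [show n + 2 = n + 1 + 1 by ring, Uw_succ, Uw_succ, q.L_succ n]
    have h1 := p.low.Uw
    have h2 := p.wn
    have h3 := H.w1
    have h4 : L n * w n t ≤ L n * (200 * dl1 lam * a n) := by gcongr
    have h5 : lam * L n * w (n + 1) t ≤ lam * L n * (100 * dl1 lam * a n * 1) := by
      gcongr
      refine h3.trans ?_
      gcongr
      linarith
    have h6 : L n * a n / lam ≤ lam * (L n * a n) := by
      have h7 : 1 ≤ lam := q.lam1
      nlinarith
    have h7 : L n * (200 * dl1 lam * a n) ≤ 200 * dl1 lam * (lam * (L n * a n)) := by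
      have h8 : 1 * (L n * a n) ≤ lam * (L n * a n) := by
        gcongr
        exact q.lam1
      have h9 : 0 < 200 * dl1 lam := by positivity
      nlinarith
    have h8 : 10 ^ 5 * dl1 lam * (L n * a n / lam) ≤
        10 ^ 5 * dl1 lam * (lam * (L n * a n)) := by gcongr
    have h9 := tiny q (10 ^ 6) (by norm_num) (by norm_num) 1 (α := -(2 / 5)) (by norm_num)
    calc N * (Uw L w n t + L n * w n t + lam * L n * w (n + 1) t)
        ≤ N * (10 ^ 6 * dl1 lam * (lam * (L n * a n))) := by
          have : 0 < dl1 lam * (lam * (L n * a n)) := by positivity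
          gcongr
          linarith
      _ = (10 ^ 6 * N * lam ^ 1 * Real.exp (-(2 / 5) * lam)) * (L n * a n) := by
          rw [dl1]; ring
      _ ≤ 1 / 10 ^ 20 * (L n * a n) := by gcongr
      _ ≤ _ := by linarith
  have hWj : N * Uw L w (n + 2 + j) t ≤ 2 / 10 ^ 5 * P := by
    have h2 : N * (dlt lam * (lam ^ 2 * L n * bb lam C x a n 0 t)) ≤ 1 / 10 ^ 20 * (L n * a n) := by
      have h3 := N_dl1 q
      have h4 : dlt lam ≤ dl1 lam := by
        rw [dlt, dl1]
        apply Real.exp_le_exp.2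
        linarith
      have h5 : N * dlt lam ≤ 1 := by
        have : N * dlt lam ≤ N * dl1 lam := by gcongr
        linarith
      calc N * (dlt lam * (lam ^ 2 * L n * bb lam C x a n 0 t))
          = N * dlt lam * (lam ^ 2 * L n * bb lam C x a n 0 t) := by ring
        _ ≤ 1 * (lam ^ 2 * L n * bb lam C x a n 0 t) := by gcongr
        _ ≤ _ := by linarith
    have h1 : N * ((2 - 2 * (1 / 2 : ℝ) ^ j) *
        (dlt lam * (lam ^ 2 * L n * bb lam C x a n 0 t))) ≤ 2 * (1 / 10 ^ 20 * (L n * a n)) := by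
      have h3 : (2 - 2 * (1 / 2 : ℝ) ^ j) ≤ 2 := by linarith
      have h4 : 0 < N * (dlt lam * (lam ^ 2 * L n * bb lam C x a n 0 t)) := by positivity
      calc N * ((2 - 2 * (1 / 2 : ℝ) ^ j) * (dlt lam * (lam ^ 2 * L n * bb lam C x a n 0 t)))
          = (2 - 2 * (1 / 2 : ℝ) ^ j) *
            (N * (dlt lam * (lam ^ 2 * L n * bb lam C x a n 0 t))) := by ring
        _ ≤ 2 * (N * (dlt lam * (lam ^ 2 * L n * bb lam C x a n 0 t))) := by gcongr
        _ ≤ _ := by gcongr
    have h5 : N * Uw L w (n + 2 + j) t ≤ N * (Uw L w (n + 2) t +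
      (2 - 2 * (1 / 2) ^ j) * (dlt lam * (lam ^ 2 * L n * bb lam C x a n 0 t))) := by gcongr
    rw [mul_add] at h5
    linarith
  linarith

/-- additional term -/
lemma addt_le {j : ℕ} (H : Hj lam C x w a n j t) (ha1 : a n ≤ 1) :
    addt lam N L x w (n + 2 + j) t ≤ 1 / 10 ^ 4 * Pp lam L C x n t * bb lam C x a n j t ^ 2 := by
  have q := g.q
  have hl := q.lamp
  have hL := q.Lp n
  have hP := Pp_pos g p ha
  have hLa := La_le g p ha
  have hb := bb_pos lam C x a n j t ha
  have hz := zprev g p ha H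
  have hA := Aj_sq g p ha H
  have hw0 := g.sy.w0 (n + 1 + j) t p.hI
  have hN := q.N_one
  rw [addt, if_neg (by omega : ¬ n + 2 + j = 0), show n + 2 + j - 1 = n + 1 + j by omega]
  have e1 : L (n + 1 + j) = lam * (lam ^ j * L n) := by
    rw [show n + 1 + j = n + (j + 1) by ring, q.Lk]; ring
  have h1 := tiny q (4 * 961) (by norm_num) (by norm_num) 1 (α := -(918 / 1000)) (by norm_num)
  have e2 : N / Real.exp lam = N * Real.exp (-lam) := by rw [Real.exp_neg, div_eq_mul_inv]
  have e3 : Real.exp (-lam) * Real.exp (41 / 1000 * lam) ^ 2 = Real.exp (-(918 / 1000) * lam) := by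
    rw [← Real.exp_nat_mul, ← Real.exp_add]
    congr 1
    push_cast
    ring
  have h5 : 0 < L n * a n := by positivity
  rw [e1, e2]
  calc N * Real.exp (-lam) * (lam * (lam ^ j * L n) * At lam x w (n + 2 + j) t ^ 2 *
        (|x (n + 1 + j) t| + w (n + 1 + j) t) ^ 2)
      = N * Real.exp (-lam) * lam * L n * (lam ^ j * At lam x w (n + 2 + j) t ^ 2) *
        (|x (n + 1 + j) t| + w (n + 1 + j) t) ^ 2 := by ring
    _ ≤ N * Real.exp (-lam) * lam * L n * (4 * a n ^ 2) *
        (31 * Real.exp (41 / 1000 * lam) * bb lam C x a n j t) ^ 2 := by gcongr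
    _ = (4 * 961 * N * lam ^ 1 * (Real.exp (-lam) * Real.exp (41 / 1000 * lam) ^ 2)) *
        (L n * a n) * a n * bb lam C x a n j t ^ 2 := by ring
    _ = (4 * 961 * N * lam ^ 1 * Real.exp (-(918 / 1000) * lam)) *
        (L n * a n) * a n * bb lam C x a n j t ^ 2 := by rw [e3]
    _ ≤ (1 / 10 ^ 20) * (L n * a n) * 1 * bb lam C x a n j t ^ 2 := by gcongr
    _ ≤ (1 / 10 ^ 4 * Pp lam L C x n t) * bb lam C x a n j t ^ 2 := by
        gcongr ?_ * _
        linarith

/-- sources, first level -/
lemma src0_le : src L C x (n + 2) t ≤ 1 / 10 ^ 10 * Pp lam L C x n t * bb lam C x a n 0 t := by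
  have q := g.q
  have hl := q.lamp
  have hL := q.Lp n
  have hP := Pp_pos g p ha
  have hb := bb_pos lam C x a n 0 t ha
  have hr := p.rpos q
  have hX := Xp g p ha
  have hCp := q.Cp (n + 1)
  have hC := q.C_hi (n + 1)
  have har := p.ar q ha
  have hXh := p.Xhi
  have hlr := lrX_le g p ha
  rw [src, if_neg (by omega : ¬ n + 2 = 0), show n + 2 - 1 = n + 1 by omega, q.L_succ n]
  have h1 : x (n + 1) t ^ 2 ≤ (rt C x n t * x n t) * (30 * (a n * rt C x n t)) := by
    rw [← sq_abs, sq]
    have h2 : |x (n + 1) t| ≤ 30 * (a n * rt C x n t) := by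
      refine p.x1.trans ?_
      calc rt C x n t * x n t ≤ rt C x n t * (30 * a n) := by gcongr
        _ = _ := by ring
    have h3 := p.x1
    gcongr
  have h2 := tiny' q 30 (by norm_num) (by norm_num) 0 (α := -(45 / 10000)) (by norm_num)
  have e : Real.exp (-(299 / 10000) * lam) * Real.exp (254 / 10000 * lam) =
      Real.exp (-(45 / 10000) * lam) := by
    rw [← Real.exp_add]; congr 1; ring
  calc lam * L n * C (n + 1) * x (n + 1) t ^ 2
      ≤ lam * L n * Real.exp (-(299 / 10000) * lam) *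
        ((rt C x n t * x n t) * (30 * (Real.exp (254 / 10000 * lam) * bb lam C x a n 0 t))) := by
        gcongr
        refine h1.trans ?_
        gcongr
    _ = (30 * lam ^ 0 * (Real.exp (-(299 / 10000) * lam) * Real.exp (254 / 10000 * lam))) *
        (lam * L n * rt C x n t * x n t) * bb lam C x a n 0 t := by ring
    _ = (30 * lam ^ 0 * Real.exp (-(45 / 10000) * lam)) *
        (lam * L n * rt C x n t * x n t) * bb lam C x a n 0 t := by rw [e]
    _ ≤ (1 / 10 ^ 20) * Pp lam L C x n t * bb lam C x a n 0 t := by gcongr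
    _ ≤ _ := by
        gcongr ?_ * _ * _
        norm_num

/-- sources, further levels -/
lemma srcj_le {i : ℕ} (H : Hj lam C x w a n (i + 1) t) :
    src L C x (n + 2 + (i + 1)) t ≤
      1 / 10 ^ 10 * Pp lam L C x n t * bb lam C x a n (i + 1) t := by
  have q := g.q
  have hl := q.lamp
  have hL := q.Lp n
  have hP := Pp_pos g p ha
  have hb := bb_pos lam C x a n (i + 1) t ha
  have hbi := bb_pos lam C x a n i t ha
  have hb0 := bb_pos lam C x a n 0 t ha
  have hCp := q.Cp (n + 2 + i)
  have hC := q.C_hi (n + 2 + i)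
  have hLi := q.Lp (n + 2 + i)
  have hx := (g.x_le p.hI (le_refl (n + 2 + i))).trans (H.y i (Nat.lt_succ_self i))
  have hLb := Lbb g p ha i (C := C) (x := x) (t := t)
  have hLa := La_le g p ha
  have hbh := bb0_hi p q ha
  rw [src, if_neg (by omega : ¬ n + 2 + (i + 1) = 0),
    show n + 2 + (i + 1) - 1 = n + 2 + i by omega]
  have h1 : x (n + 2 + i) t ^ 2 ≤ bb lam C x a n i t * bb lam C x a n i t := by
    rw [← sq_abs, sq]
    gcongr
  have h2 := tiny' q 1 (by norm_num) (by norm_num) 2 (α := -(37 / 10000)) (by norm_num)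
  have e : Real.exp (-(299 / 10000) * lam) * Real.exp (41 / 1000 * lam) *
      Real.exp (-(148 / 10000) * lam) = Real.exp (-(37 / 10000) * lam) := by
    rw [← Real.exp_add, ← Real.exp_add]; congr 1; ring
  have hpow : (1 / 2 : ℝ) ^ i ≤ 1 := pow_le_one₀ (by norm_num) (by norm_num)
  have h5 : 0 < L n * a n := by positivity
  calc L (n + 2 + i) * C (n + 2 + i) * x (n + 2 + i) t ^ 2
      ≤ L (n + 2 + i) * Real.exp (-(299 / 10000) * lam) *
        (bb lam C x a n i t * bb lam C x a n i t) := by gcongr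
    _ = (L (n + 2 + i) * bb lam C x a n i t) * Real.exp (-(299 / 10000) * lam) *
        bb lam C x a n i t := by ring
    _ ≤ (1 * (lam ^ 2 * L n * bb lam C x a n 0 t)) * Real.exp (-(299 / 10000) * lam) *
        bb lam C x a n i t := by
        gcongr ?_ * _ * _
        refine hLb.trans ?_
        gcongr
    _ ≤ (1 * (lam ^ 2 * L n * (a n * Real.exp (-(148 / 10000) * lam)))) *
        Real.exp (-(299 / 10000) * lam) * bb lam C x a n i t := by gcongr
    _ = (1 * lam ^ 2 * (Real.exp (-(299 / 10000) * lam) * Real.exp (41 / 1000 * lam) *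
        Real.exp (-(148 / 10000) * lam))) * (L n * a n) * bb lam C x a n (i + 1) t := by
        rw [bb_succ i]; ring
    _ = (1 * lam ^ 2 * Real.exp (-(37 / 10000) * lam)) * (L n * a n) *
        bb lam C x a n (i + 1) t := by rw [e]
    _ ≤ (1 / 10 ^ 20) * (2 * Pp lam L C x n t) * bb lam C x a n (i + 1) t := by gcongr
    _ ≤ (1 / 10 ^ 10 * Pp lam L C x n t) * bb lam C x a n (i + 1) t := by
        gcongr ?_ * _
        linarith

/-- local terms, first level -/
lemma loc0_le {j : ℕ} (H : Hj lam C x w a n j t) :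
    N * loc L x w (n + 2) t ≤ 1 / 10 ^ 10 * Pp lam L C x n t * bb lam C x a n 0 t := by
  have q := g.q
  have hl := q.lamp
  have hL := q.Lp n
  have hP := Pp_pos g p ha
  have hb := bb_pos lam C x a n 0 t ha
  have hd := dl1_pos lam
  have hds := dl1_small1 q
  have hX := Xp g p ha
  have hXl := p.Xlo
  have hN := q.N_one
  have hz := z1_le' g p ha H
  have hwn := p.wn
  have hw0 := g.sy.w0 n t p.hI
  have hw10 := g.sy.w0 (n + 1) t p.hI
  have hr2 := p.r_le q
  have hab := a_le_b0 g p ha
  have hLX := LX_le g p ha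
  rw [loc, if_neg (by omega : ¬ n + 2 = 0), show n + 2 - 1 = n + 1 by omega,
    show n + 2 - 2 = n by omega, q.L_succ n, abs_of_pos hX]
  have h1 : |x (n + 1) t| + w (n + 1) t + x n t + w n t ≤ 3 * x n t := by
    have : 200 * dl1 lam * a n ≤ 1 / 10 * a n := by
      gcongr
      linarith
    linarith
  have h2 : w (n + 1) t + w n t ≤ 300 * dl1 lam * a n := by
    have h3 := H.w1
    have h4 : 100 * dl1 lam * a n * rt C x n t ≤ 100 * dl1 lam * a n * 1 := by
      gcongr
      linarith
    linarith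
  have h3 := tiny q 900 (by norm_num) (by norm_num) 1 (α := -(344598 / 1000000)) (by norm_num)
  have e : dl1 lam * Real.exp (55402 / 1000000 * lam) = Real.exp (-(344598 / 1000000) * lam) := by
    rw [dl1, ← Real.exp_add]; congr 1; ring
  calc N * (lam * L n * ((|x (n + 1) t| + w (n + 1) t + x n t + w n t) *
        (w (n + 1) t + w n t)))
      ≤ N * (lam * L n * ((3 * x n t) * (300 * dl1 lam * a n))) := by gcongr
    _ ≤ N * (lam * L n * ((3 * x n t) * (300 * dl1 lam *
        (Real.exp (55402 / 1000000 * lam) * bb lam C x a n 0 t)))) := by gcongr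
    _ = (900 * N * lam ^ 1 * (dl1 lam * Real.exp (55402 / 1000000 * lam))) * (L n * x n t) *
        bb lam C x a n 0 t := by ring
    _ = (900 * N * lam ^ 1 * Real.exp (-(344598 / 1000000) * lam)) * (L n * x n t) *
        bb lam C x a n 0 t := by rw [e]
    _ ≤ (1 / 10 ^ 20) * Pp lam L C x n t * bb lam C x a n 0 t := by gcongr
    _ ≤ _ := by
        gcongr ?_ * _ * _
        norm_num

/-- local terms, second level -/
lemma loc1_le (H : Hj lam C x w a n 1 t) :
    N * loc L x w (n + 2 + 1) t ≤ 1 / 10 ^ 10 * Pp lam L C x n t * bb lam C x a n 1 t := by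
  have q := g.q
  have hl := q.lamp
  have hL := q.Lp n
  have hP := Pp_pos g p ha
  have hb := bb_pos lam C x a n 0 t ha
  have hb1 := bb_pos lam C x a n 1 t ha
  have hd := dl1_pos lam
  have hdt := dlt_pos lam
  have hN := q.N_one
  have hz := z1_le' g p ha H
  have hz2 := zz_le g p ha H (Nat.lt_succ_self 0)
  have hw2 := H.w 0 (Nat.lt_succ_self 0)
  have hw0 := g.sy.w0 (n + 2) t p.hI
  have hw10 := g.sy.w0 (n + 1) t p.hI
  have hr2 := p.r_le q
  have hab := a_le_b0 g p ha
  have hba := b0_le_a g p ha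
  have hLa := La_le g p ha
  rw [add_zero] at hz2 hw2
  rw [loc, if_neg (by omega : ¬ n + 2 + 1 = 0), show n + 2 + 1 - 1 = n + 2 by omega,
    show n + 2 + 1 - 2 = n + 1 by omega]
  have e0 : L (n + 2) = lam ^ 2 * L n := by rw [q.Lk]
  have h1 : |x (n + 2) t| + w (n + 2) t + |x (n + 1) t| + w (n + 1) t ≤ 3 * a n := by linarith
  have h2 : w (n + 2) t + w (n + 1) t ≤ 101 * dl1 lam * a n := by
    have h3 := H.w1
    have h4 : 100 * dl1 lam * a n * rt C x n t ≤ 100 * dl1 lam * a n * 1 := by
      gcongr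
      linarith
    have h5 : dlt lam * bb lam C x a n 0 t ≤ dl1 lam * a n := by
      have h6 : dlt lam ≤ dl1 lam := by
        rw [dlt, dl1]
        apply Real.exp_le_exp.2
        linarith
      gcongr
    linarith
  have h3 := tiny q 303 (by norm_num) (by norm_num) 2 (α := -(303598 / 1000000)) (by norm_num)
  have e : dl1 lam * (Real.exp (55402 / 1000000 * lam) * Real.exp (41 / 1000 * lam)) =
      Real.exp (-(303598 / 1000000) * lam) := by
    rw [dl1, ← Real.exp_add, ← Real.exp_add]; congr 1; ring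
  have h5 : 0 < L n * a n := by positivity
  rw [e0]
  calc N * (lam ^ 2 * L n * ((|x (n + 2) t| + w (n + 2) t + |x (n + 1) t| + w (n + 1) t) *
        (w (n + 2) t + w (n + 1) t)))
      ≤ N * (lam ^ 2 * L n * ((3 * a n) * (101 * dl1 lam * a n))) := by gcongr
    _ ≤ N * (lam ^ 2 * L n * ((3 * a n) * (101 * dl1 lam *
        (Real.exp (55402 / 1000000 * lam) * bb lam C x a n 0 t)))) := by gcongr
    _ = (303 * N * lam ^ 2 * (dl1 lam * (Real.exp (55402 / 1000000 * lam) *
        Real.exp (41 / 1000 * lam)))) * (L n * a n) * bb lam C x a n 1 t := by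
        rw [bb_succ 0]; ring
    _ = (303 * N * lam ^ 2 * Real.exp (-(303598 / 1000000) * lam)) * (L n * a n) *
        bb lam C x a n 1 t := by rw [e]
    _ ≤ (1 / 10 ^ 20) * (2 * Pp lam L C x n t) * bb lam C x a n 1 t := by gcongr
    _ ≤ (1 / 10 ^ 10 * Pp lam L C x n t) * bb lam C x a n 1 t := by
        gcongr ?_ * _
        linarith

/-- local terms, further levels -/
lemma loc2_le {k : ℕ} (H : Hj lam C x w a n (k + 2) t) :
    N * loc L x w (n + 2 + (k + 2)) t ≤
      1 / 10 ^ 10 * Pp lam L C x n t * bb lam C x a n (k + 2) t := by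
  have q := g.q
  have hl := q.lamp
  have hL := q.Lp n
  have hP := Pp_pos g p ha
  have hb := bb_pos lam C x a n 0 t ha
  have hbk := bb_pos lam C x a n k t ha
  have hbk2 := bb_pos lam C x a n (k + 2) t ha
  have hdt := dlt_pos lam
  have hN := q.N_one
  have hz1 := zz_le g p ha H (show k + 1 < k + 2 by omega)
  have hz0 := zz_le g p ha H (show k < k + 2 by omega)
  have hw1 := H.w (k + 1) (by omega)
  have hw0 := H.w k (by omega)
  have hw00 := g.sy.w0 (n + 2 + k) t p.hI
  have hw10 := g.sy.w0 (n + 2 + (k + 1)) t p.hI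
  have hLb := Lbb g p ha k (C := C) (x := x) (t := t)
  have hLa := La_le g p ha
  have hba := b0_le_a g p ha
  have hpow : (1 / 2 : ℝ) ^ k ≤ 1 := pow_le_one₀ (by norm_num) (by norm_num)
  have hmono : bb lam C x a n (k + 1) t ≤ bb lam C x a n k t := by
    have hv1 := vv_le q
    have hv := vv_pos lam
    rw [bb_eq lam C x a n (k + 1), bb_eq lam C x a n k, pow_succ]
    have : vv lam ^ k * vv lam ≤ vv lam ^ k * 1 := by
      gcongr
      linarith
    have h4 : 0 < vv lam ^ k := by positivity
    nlinarith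
  rw [loc, if_neg (by omega : ¬ n + 2 + (k + 2) = 0),
    show n + 2 + (k + 2) - 1 = n + 2 + (k + 1) by omega,
    show n + 2 + (k + 2) - 2 = n + 2 + k by omega]
  have e0 : L (n + 2 + (k + 1)) = lam * L (n + 2 + k) := by
    rw [show n + 2 + (k + 1) = n + 2 + k + 1 by ring, q.L_succ]
  have hLk := q.Lp (n + 2 + k)
  have h1 : |x (n + 2 + (k + 1)) t| + w (n + 2 + (k + 1)) t + |x (n + 2 + k) t| +
      w (n + 2 + k) t ≤ 4 * bb lam C x a n k t := by linarith
  have h2 : w (n + 2 + (k + 1)) t + w (n + 2 + k) t ≤ 2 * dlt lam * bb lam C x a n k t := by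
    have : dlt lam * bb lam C x a n (k + 1) t ≤ dlt lam * bb lam C x a n k t := by gcongr
    linarith
  have h3 := tiny q 8 (by norm_num) (by norm_num) 3 (α := -(418 / 1000)) (by norm_num)
  have e : dlt lam * (Real.exp (41 / 1000 * lam) * Real.exp (41 / 1000 * lam)) =
      Real.exp (-(418 / 1000) * lam) := by
    rw [dlt, ← Real.exp_add, ← Real.exp_add]; congr 1; ring
  have h5 : 0 < L n * a n := by positivity
  rw [e0]
  calc N * (lam * L (n + 2 + k) * ((|x (n + 2 + (k + 1)) t| + w (n + 2 + (k + 1)) t +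
        |x (n + 2 + k) t| + w (n + 2 + k) t) * (w (n + 2 + (k + 1)) t + w (n + 2 + k) t)))
      ≤ N * (lam * L (n + 2 + k) * ((4 * bb lam C x a n k t) *
        (2 * dlt lam * bb lam C x a n k t))) := by gcongr
    _ = 8 * N * lam * dlt lam * (L (n + 2 + k) * bb lam C x a n k t) * bb lam C x a n k t := by
        ring
    _ ≤ 8 * N * lam * dlt lam * (1 * (lam ^ 2 * L n * a n)) * bb lam C x a n k t := by
        gcongr _ * ?_ * _
        refine hLb.trans ?_
        gcongr
    _ = (8 * N * lam ^ 3 * (dlt lam * (Real.exp (41 / 1000 * lam) *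
        Real.exp (41 / 1000 * lam)))) * (L n * a n) * bb lam C x a n (k + 2) t := by
        rw [bb_succ k, bb_succ (k + 1)]; ring
    _ = (8 * N * lam ^ 3 * Real.exp (-(418 / 1000) * lam)) * (L n * a n) *
        bb lam C x a n (k + 2) t := by rw [e]
    _ ≤ (1 / 10 ^ 20) * (2 * Pp lam L C x n t) * bb lam C x a n (k + 2) t := by gcongr
    _ ≤ (1 / 10 ^ 10 * Pp lam L C x n t) * bb lam C x a n (k + 2) t := by
        gcongr ?_ * _
        linarith

/-- sources and local terms -/
lemma sl_le {j : ℕ} (H : Hj lam C x w a n j t) :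
    src L C x (n + 2 + j) t + N * loc L x w (n + 2 + j) t ≤
      1 / 10 ^ 4 * Pp lam L C x n t * bb lam C x a n j t := by
  have hP := Pp_pos g p ha
  have hb := bb_pos lam C x a n j t ha
  have hPb : 0 < Pp lam L C x n t * bb lam C x a n j t := by positivity
  rcases j with _ | _ | k
  · have h1 := src0_le g p ha
    have h2 := loc0_le g p ha H
    rw [add_zero]
    linarith
  · have h1 := srcj_le g p ha H
    have h2 := loc1_le g p ha H
    rw [zero_add] at *
    linarith
  · have h1 := srcj_le g p ha H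
    have h2 := loc2_le g p ha H
    have e : k + 1 + 1 = k + 2 := by ring
    rw [e] at *
    linarith

/-- the force of the other modes -/
lemma wf_le {j : ℕ} (H : Hj lam C x w a n j t) (ha1 : a n ≤ 1)
    (hY : √(Yt x w (n + 2 + j) t) ≤ bb lam C x a n j t) :
    wfc lam N L x w (n + 2 + j) t ≤
      Real.exp lam * L (n + 2 + j) * (dlt lam * bb lam C x a n j t) := by
  have q := g.q
  have hl := q.lamp
  have hL := q.Lp (n + 2 + j)
  have hL1 := q.Lp (n + 1 + j)
  have hLm := q.Lmono (show n + 1 + j ≤ n + 2 + j by omega)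
  have hb := bb_pos lam C x a n j t ha
  have hN := q.N_one
  have hz := zprev g p ha H
  have hA := Aj_le2 g p ha H
  have hA0 := g.A_nonneg p.hI (n + 2 + j)
  have hw0 := g.sy.w0 (n + 1 + j) t p.hI
  have hbj : bb lam C x a n j t ≤ 1 := ((bb_le_b0 g p ha j).trans (b0_le_a g p ha)).trans ha1
  have hexp : 1 ≤ Real.exp (41 / 1000 * lam) := Real.one_le_exp (by positivity)
  rw [wfc, if_neg (by omega : ¬ n + 2 + j = 0), show n + 2 + j - 1 = n + 1 + j by omega]
  have h1 := tiny q 65 (by norm_num) (by norm_num) 0 (α := -(459 / 1000)) (by norm_num)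
  have h2 : 65 * N * Real.exp (41 / 1000 * lam) ≤ Real.exp (lam / 2) := by
    have e : Real.exp (41 / 1000 * lam) =
        Real.exp (-(459 / 1000) * lam) * Real.exp (lam / 2) := by
      rw [← Real.exp_add]; congr 1; ring
    rw [e]
    calc 65 * N * (Real.exp (-(459 / 1000) * lam) * Real.exp (lam / 2))
        = (65 * N * lam ^ 0 * Real.exp (-(459 / 1000) * lam)) * Real.exp (lam / 2) := by ring
      _ ≤ 1 * Real.exp (lam / 2) := by
          gcongr
          linarith
      _ = _ := one_mul _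
  have h3 : Real.exp lam * dlt lam = Real.exp (lam / 2) := by
    rw [dlt, ← Real.exp_add]; congr 1; ring
  calc N * (L (n + 2 + j) * (At lam x w (n + 2 + j) t + √(Yt x w (n + 2 + j) t)) *
        √(Yt x w (n + 2 + j) t) +
        L (n + 1 + j) * At lam x w (n + 2 + j) t * (|x (n + 1 + j) t| + w (n + 1 + j) t))
      ≤ N * (L (n + 2 + j) * (2 * 1 + 1) * bb lam C x a n j t +
        L (n + 2 + j) * (2 * 1) *
          (31 * Real.exp (41 / 1000 * lam) * bb lam C x a n j t)) := by
        gcongr
        · exact hA.trans (by linarith)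
        · exact hY.trans hbj
        · exact hA.trans (by linarith)
    _ = N * L (n + 2 + j) * bb lam C x a n j t * (3 + 62 * Real.exp (41 / 1000 * lam)) := by
        ring
    _ ≤ N * L (n + 2 + j) * bb lam C x a n j t * (65 * Real.exp (41 / 1000 * lam)) := by
        gcongr
        linarith
    _ = (65 * N * Real.exp (41 / 1000 * lam)) * (L (n + 2 + j) * bb lam C x a n j t) := by ring
    _ ≤ Real.exp (lam / 2) * (L (n + 2 + j) * bb lam C x a n j t) := by gcongr
    _ = _ := by rw [← h3]; ring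

/-- the force of the other modes of the group `n + 1` -/
lemma wf1_le (ha1 : a n ≤ 1) :
    wfc lam N L x w (n + 1) t ≤
      Real.exp lam * L (n + 1) * (100 * dl1 lam * a n * rt C x n t) := by
  have q := g.q
  have hl := q.lamp
  have hL := q.Lp (n + 1)
  have hLn := q.Lp n
  have hLm := q.Lmono (show n ≤ n + 1 by omega)
  have hN := q.N_one
  have hX := Xp g p ha
  have hXh := p.Xhi
  have hA := A1_le g p ha
  have hA0 := g.A_nonneg p.hI (n + 1)
  have hsY := p.sY
  have hw0 := g.sy.w0 n t p.hI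
  have hwn := p.wn
  have hds := dl1_small1 q
  have hd := dl1_pos lam
  have hr := p.rlo
  have hC := q.C_lo n
  have hY2 : √(Yt x w (n + 1) t) ≤ a n := by linarith
  have hz : |x n t| + w n t ≤ 31 * a n := by
    rw [abs_of_pos hX]
    have : 200 * dl1 lam * a n ≤ 1 * a n := by
      gcongr
      linarith
    linarith
  have h0 : 0 ≤ |x n t| + w n t := by positivity
  rw [wfc, if_neg (by omega : ¬ n + 1 = 0), show n + 1 - 1 = n by omega]
  have h1 := tiny q 993 (by norm_num) (by norm_num) 0 (α := -(5699 / 10000)) (by norm_num)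
  have h2 : 993 * N ≤ Real.exp (5699 / 10000 * lam) := by
    have e : Real.exp (-(5699 / 10000) * lam) * Real.exp (5699 / 10000 * lam) = 1 := by
      rw [← Real.exp_add]
      have : -(5699 / 10000) * lam + 5699 / 10000 * lam = 0 := by ring
      rw [this, Real.exp_zero]
    have h3 := Real.exp_pos (5699 / 10000 * lam)
    calc 993 * N = (993 * N * lam ^ 0 * Real.exp (-(5699 / 10000) * lam)) *
        Real.exp (5699 / 10000 * lam) := by
          rw [mul_assoc (993 * N * lam ^ 0), e]; ring
      _ ≤ 1 * Real.exp (5699 / 10000 * lam) := by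
          gcongr
          linarith
      _ = _ := one_mul _
  have h3 : Real.exp lam * (dl1 lam * Real.exp (-(301 / 10000) * lam)) =
      Real.exp (5699 / 10000 * lam) := by
    rw [dl1, ← Real.exp_add, ← Real.exp_add]; congr 1; ring
  calc N * (L (n + 1) * (At lam x w (n + 1) t + √(Yt x w (n + 1) t)) * √(Yt x w (n + 1) t) +
        L n * At lam x w (n + 1) t * (|x n t| + w n t))
      ≤ N * (L (n + 1) * (31 * a n + a n) * a n + L (n + 1) * (31 * a n) * (31 * a n)) := by
        gcongr
    _ = (993 * N) * (L (n + 1) * a n * a n) := by ring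
    _ ≤ Real.exp (5699 / 10000 * lam) * (L (n + 1) * a n * 1) := by gcongr
    _ = Real.exp lam * L (n + 1) * (dl1 lam * a n * Real.exp (-(301 / 10000) * lam)) := by
        rw [← h3]; ring
    _ ≤ Real.exp lam * L (n + 1) * (dl1 lam * a n * (100 * rt C x n t)) := by
        gcongr
        have := q.Cp n
        linarith
    _ = _ := by ring

end lev

end Pool.Agent.Y748.NE
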